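import Pool.Agent.H.MP_418eb4_lc.Alg

namespace Pool.Agent.Results.MP_418eb4_lc.Yes
open Classical Encodable Pool.Agent.Lib.PR Pool.Agent.H.MP_418eb4_lc

/-- one unary symbol f with the single law f^N(x) = x -/
def cyc (N : ℕ) : Set (Tm Empty Unit ℕ × Tm Empty Unit ℕ) := {((.inl 0, .replicate N ()), (.inl 0, []))}

def tm (i : ℕ) : Tm Empty Unit (Fin 1) := (.inl 0, .replicate i ())

theorem tm_eq (t : Tm Empty Unit (Fin 1)) : t = tm t.2.length := by
  obtain ⟨_ | ⟨⟨⟩⟩, l⟩ := t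
  exact Prod.ext (congrArg Sum.inl (Subsingleton.elim ..)) (List.eq_replicate_iff.2 ⟨rfl, fun _ _ => rfl⟩)

variable {N : ℕ} {A : Set ℕ}

theorem sh {i j} (h : Con (cyc N) A (tm i) (tm j)) (k) : Con (cyc N) A (tm (i + k)) (tm (j + k)) := by
  induction k with
  | zero => exact h
  | succ k ih => exact ih.op ()

theorem lw (i) : Con (cyc N) A (tm (N + i)) (tm i) := by
  simpa [inst, tm] using Con.law (A := A) (fun _ => tm i) (show _ ∈ cyc N from rfl)

theorem per (h : 0 < N) (A) : ∃ d, 0 < d ∧ d ∣ N ∧ ∀ i j, Con (cyc N) A (tm i) (tm j) ↔ i ≡ j [MOD d] := by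
  have e : ∃ d, 0 < d ∧ Con (cyc N) A (tm d) (tm 0) := ⟨N, h, lw 0⟩
  obtain ⟨a, b⟩ := Nat.find_spec e
  have c := fun m => Nat.find_min e (m := m)
  have le : Nat.find e ≤ N := Nat.find_le ⟨h, lw 0⟩
  generalize Nat.find e = d at *
  have m : ∀ i, Con (cyc N) A (tm i) (tm (i % d)) := fun i => by
    conv => arg 3; rw [← Nat.div_add_mod i d]
    induction i / d with
    | zero => simpa using .refl _
    | succ q ih => exact .trans (by convert sh b (d * q + i % d) using 2 <;> ring) ih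
  have k : ∀ i j, i < j → j < d → ¬ Con (cyc N) A (tm i) (tm j) := fun i j p q r => c (j - i) (by omega) ⟨by omega, by
    have := sh r (N - i)
    rw [show i + (N - i) = N + 0 by omega, show j + (N - i) = N + (j - i) by omega] at this
    exact (lw _).symm.trans (this.symm.trans (lw 0))⟩
  have : ∀ i j, Con (cyc N) A (tm i) (tm j) ↔ i ≡ j [MOD d] := fun i j => ⟨fun r => by
    have r := (m i).symm.trans (r.trans (m j))
    rcases lt_trichotomy (i % d) (j % d) with p | p | p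
    exacts [(k _ _ p (Nat.mod_lt _ a) r).elim, p, (k _ _ p (Nat.mod_lt _ a) r.symm).elim],
    fun r => (m i).trans (r ▸ (m j).symm)⟩
  exact ⟨d, a, Nat.modEq_zero_iff_dvd.1 ((this _ _).1 (lw 0)), this⟩

theorem iso (h : 0 < N) : ∃ D : ℕ → ℕ, (∀ e, D e ∣ N ∧ ∀ i j, Con (cyc N) (W e) (tm i) (tm j) ↔ i ≡ j [MOD D e]) ∧
    ∀ e i, Isom (cyc N) 1 e i ↔ D e = D i := by
  choose D _ a b using fun e => per h (W e)
  refine ⟨D, fun e => ⟨a e, b e⟩, fun e i => ⟨fun ⟨φ, _, k⟩ => ?_, fun k => ⟨Quot.congrRight fun s t => by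
    rw [tm_eq s, tm_eq t, b, b, k], fun _ => rfl, fun f s t l => mk_eq.2 ((mk_eq.1 l).op f)⟩⟩⟩
  obtain ⟨t, l⟩ := (φ (.mk _ (tm 0))).exists_rep
  have : ∀ n, φ (.mk _ (tm n)) = .mk _ (tm (t.2.length + n)) := fun n => by
    induction n with
    | zero => exact l.symm.trans (congrArg _ (tm_eq t))
    | succ n ih => exact k () _ _ ih
  have : ∀ n, D e ∣ n ↔ D i ∣ n := fun n => by
    rw [← Nat.modEq_zero_iff_dvd, ← b, ← mk_eq, ← φ.apply_eq_iff_eq, this, this, mk_eq, b,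
      Nat.ModEq.add_iff_left rfl, Nat.modEq_zero_iff_dvd]
  exact Nat.dvd_antisymm ((this _).2 dvd_rfl) ((this _).1 dvd_rfl)

attribute [local irreducible] Primrec Computable

theorem idx : ∃ u : ℕ → ℕ, (∀ d m, m ∈ W (u d) ↔ ∃ p : ℕ × ℕ, m = encode (tm p.1, tm p.2) ∧ p.1 % d = p.2 % d) ∧
    ∀ N d, d ∣ N → ∀ i j, Con (cyc N) (W (u d)) (tm i) (tm j) ↔ i ≡ j [MOD d] := by
  obtain ⟨u, -, h⟩ := smn_idx (re_of (P := fun (z : ℕ × ℕ) (p : ℕ × ℕ) => z.2 = encode (tm p.1, tm p.2) ∧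
    p.1 % z.1 = p.2 % z.1) (by
      have : Primrec fun i => tm i := by unfold tm; fun_prop
      fun_prop))
  refine ⟨u, h, fun N d e i j => ⟨fun k => ?_, fun k => .base ((h _ _).2 ⟨(i, j), rfl, k⟩)⟩⟩
  suffices ∀ s t : Tm Empty Unit (Fin 1), Con (cyc N) (W (u d)) s t → s.2.length ≡ t.2.length [MOD d] by
    simpa [tm] using this _ _ k
  intro s t k
  induction k with
  | base k =>
    obtain ⟨p, a, b⟩ := (h _ _).1 k
    cases encode_injective a
    simpa [tm, Nat.ModEq] using b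
  | law s k => cases k; simpa [inst] using (Nat.modEq_zero_iff_dvd.2 e).add_right (s 0).2.length
  | refl => rfl
  | symm _ ih => exact ih.symm
  | trans _ _ i j => exact i.trans j
  | op _ _ ih => exact ih.add_right 1

theorem result : ¬ Red (Isom (cyc 30) 1) (Isom (cyc 16) 1) ∧ ¬ Red (Isom (cyc 16) 1) (Isom (cyc 30) 1) := by
  obtain ⟨D, d1, d2⟩ := iso (N := 30) (by decide)
  obtain ⟨E, e1, e2⟩ := iso (N := 16) (by decide)
  obtain ⟨u, u1, u2⟩ := idx
  have key : ∀ {N d d' e}, (∀ i j, Con (cyc N) (W e) (tm i) (tm j) ↔ i ≡ j [MOD d]) →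
      (∀ i j, Con (cyc N) (W e) (tm i) (tm j) ↔ i ≡ j [MOD d']) → d = d' := fun a b => Nat.dvd_antisymm
    (Nat.modEq_zero_iff_dvd.1 ((a _ _).1 ((b _ _).2 (Nat.modEq_zero_iff_dvd.2 dvd_rfl))))
    (Nat.modEq_zero_iff_dvd.1 ((b _ _).1 ((a _ _).2 (Nat.modEq_zero_iff_dvd.2 dvd_rfl))))
  constructor
  · rintro ⟨h, -, k⟩
    refine absurd (Finset.card_le_card_of_injOn (s := Nat.divisors 30) (t := Nat.divisors 16) (fun d => E (h (u d)))
      (fun d _ => by simp [(e1 _).1]) fun a p b q r => ?_) (by decide)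
    rw [key (u2 _ _ (Nat.dvd_of_mem_divisors p)) (d1 _).2, key (u2 _ _ (Nat.dvd_of_mem_divisors q)) (d1 _).2]
    exact (d2 _ _).1 ((k _ _).2 ((e2 _ _).2 r))
  rintro ⟨h, c, k⟩
  have rc := re_con (L := cyc 30) (X := Fin 1) (Primrec.of_eq (f := fun p => cd (p.1.2.length = 30 + p.2.2.length))
    (by fun_prop) fun p => congrArg cd (propext ⟨fun l => ⟨_, rfl, fun _ => p.2, by
      rw [Prod.ext_iff, tm_eq p.1, l, tm_eq p.2]; simp [inst, tm, List.replicate_add]⟩, by rintro ⟨_, rfl, s, rfl⟩; simp [inst]; omega⟩))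
  have rw : REPred fun z : ℕ × ℕ => z.2 ∈ W z.1 := (re_of (P := fun (z : ℕ × ℕ) (s : ℕ) =>
    (Nat.Partrec.Code.evaln s (Denumerable.ofNat _ z.1) z.2).isSome = true) (by fun_prop)).of_eq fun _ => mem_W.symm
  have mono : ∀ d d', d ∣ 16 → d' ∣ d → d ≠ d' → D (h (u d')) ∣ D (h (u d)) ∧ D (h (u d)) ≠ D (h (u d')) :=
    fun d d' a b n => by
      refine ⟨by_contra fun o => ?_, fun o => n ?_⟩
      · obtain ⟨x, hx⟩ := rec_idx (R := fun z => z.2 ∈ W (u d) ∨ (z.2 ∈ W (u d') ∧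
          Con (cyc 30) (W (h z.1)) (tm (D (h (u d)))) (tm 0))) (re_or (re_comp rw (g := fun z : ℕ × ℕ => (u d, z.2))
          (by fun_prop)) (re_and (re_comp rw (g := fun z : ℕ × ℕ => (u d', z.2)) (by fun_prop))
          (re_comp rc (g := fun z : ℕ × ℕ => (h z.1, tm (D (h (u d))), tm 0)) (by fun_prop))))
        have q : ∀ y, W x = W y → D (h x) = D (h y) := fun y l =>
          (d2 _ _).1 ((k _ _).1 ((e2 _ _).2 (key (e1 x).2 (l ▸ (e1 y).2))))
        simp only [(d1 _).2, Nat.modEq_zero_iff_dvd] at hx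
        by_cases l : D (h x) ∣ D (h (u d))
        · refine o (q (u d') (Set.ext fun m => (hx m).trans ⟨fun r => r.elim (fun r => ?_) (·.1), fun r => .inr ⟨r, l⟩⟩) ▸ l)
          obtain ⟨p, r, s⟩ := (u1 _ _).1 r
          exact (u1 _ _).2 ⟨p, r, Nat.ModEq.of_dvd b s⟩
        · exact l (q (u d) (Set.ext fun m => by simp [hx, l]) ▸ dvd_rfl)
      · rw [key (u2 _ _ a) (e1 _).2, key (u2 _ _ (b.trans a)) (e1 _).2]
        exact (e2 _ _).1 ((k _ _).2 ((d2 _ _).2 o))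
  have : ∀ a ∈ Nat.divisors 30, ∀ b ∈ Nat.divisors 30, b ∣ a ∧ a ≠ b → ∀ c ∈ Nat.divisors 30, c ∣ b ∧ b ≠ c →
      ∀ d ∈ Nat.divisors 30, d ∣ c ∧ c ≠ d → ∀ e ∈ Nat.divisors 30, ¬ (e ∣ d ∧ d ≠ e) := by decide
  have m : ∀ e, D e ∈ Nat.divisors 30 := fun e => by simp [(d1 _).1]
  exact this _ (m _) _ (m _) (mono 16 8 (by decide) (by decide) (by decide)) _ (m _)
    (mono 8 4 (by decide) (by decide) (by decide)) _ (m _) (mono 4 2 (by decide) (by decide) (by decide)) _ (m _)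
    (mono 2 1 (by decide) (by decide) (by decide))

end Pool.Agent.Results.MP_418eb4_lc.Yes
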